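import Pool.Agent.helper58.CRO.SpecF

/-!
# MP_5bf3c3_gt, row cro:EX2
-/

open scoped Manifold ContDiff Topology ENNReal
open MeasureTheory Set Bundle Filter

noncomputable section

namespace Pool.Agent.CRO

universe u

theorem EX2_kap (n : ℕ) : 0 < kap n := by
  unfold kap
  rw [ENNReal.toReal_pos_iff]
  exact ⟨Metric.measure_ball_pos _ _ one_pos, measure_ball_lt_top⟩

theorem EX2_pow {n : ℕ} (hn : 1 ≤ n) {v : ℝ} (hv : 0 < v) : (v ^ (-(1 : ℝ) / n)) ^ n = v⁻¹ := by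
  have hn0 : (n : ℝ) ≠ 0 := by
    have : (1 : ℝ) ≤ n := by exact_mod_cast hn
    linarith
  rw [← Real.rpow_natCast, ← Real.rpow_mul hv.le, div_mul_cancel₀ _ hn0, Real.rpow_neg_one]

theorem EX2 (h1 : VVC_stmt) (h2 : VVP_stmt) (h3 : INQ_stmt) (h4 : RIC_stmt) : EX2_stmt := by
  intro n r0 L 𝒢 hn hE ρ hρ hρ0 hρL
  have hr0 : 0 < r0 := hρ.trans hρ0
  have hn0 : (0 : ℝ) < n := by exact_mod_cast hn
  obtain ⟨hpos, hmono, -⟩ := h2 n r0 𝒢 hn hr0
  have hκ := EX2_kap n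
  have hexp : -(1 : ℝ) / n ≤ 0 := by
    rw [neg_div]
    have : (0 : ℝ) ≤ 1 / n := by positivity
    linarith
  have hQ : 0 < (kap n) ^ (-(1 : ℝ) / n) := Real.rpow_pos_of_pos hκ _
  have hB : 0 < Real.pi / 2 * (kap n) ^ (-(1 : ℝ) / n) :=
    mul_pos (by linarith [Real.pi_pos]) hQ
  have key := h4 (fun x => (VV 𝒢 x) ^ (-(1 : ℝ) / n)) ρ (Real.pi / 2 * (kap n) ^ (-(1 : ℝ) / n))
    hρ hB
    (by
      have hc : ContinuousOn (fun x => VV 𝒢 x) (Ioc 0 ρ) :=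
        (h1 n r0 𝒢 hn).mono fun x hx => ⟨hx.1, lt_of_le_of_lt hx.2 hρ0⟩
      exact hc.rpow_const fun x hx => Or.inl (hpos x hx.1 (lt_of_le_of_lt hx.2 hρ0)).ne')
    (by
      intro x hx y hy hxy
      exact Real.rpow_le_rpow_of_nonpos (hpos x hx.1 (lt_of_le_of_lt hx.2 hρ0))
        (hmono x y hxy (lt_of_le_of_lt hy.2 hρ0)) hexp)
    (by
      intro x hx
      exact Real.rpow_pos_of_pos (hpos x hx.1 (lt_of_le_of_lt hx.2 hρ0)) _)
    (by
      intro c hc hc2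
      have hci : c + ρ / 2 < r0 := by linarith
      have h5 := h3 n r0 L 𝒢 hn hE c (ρ / 2) hc (by linarith) hci (by linarith)
      have h6 : ∫ x in c..(c + ρ / 2), ((VV 𝒢 x) ^ (-(1 : ℝ) / n)) ^ 2 =
          ∫ x in c..(c + ρ / 2), (VV 𝒢 x) ^ (-(2 : ℝ) / n) := by
        apply intervalIntegral.integral_congr
        intro x hx
        rw [uIcc_of_le (by linarith)] at hx
        have hv := hpos x (lt_of_lt_of_le hc hx.1) (lt_of_le_of_lt hx.2 hci)
        show ((VV 𝒢 x) ^ (-(1 : ℝ) / n)) ^ 2 = (VV 𝒢 x) ^ (-(2 : ℝ) / n)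
        rw [← Real.rpow_natCast, ← Real.rpow_mul hv.le]
        congr 1
        push_cast
        ring
      rw [h6]
      refine h5.trans (le_of_eq ?_)
      rw [Real.mul_rpow hκ.le (hpos c hc (by linarith)).le]
      ring)
  have hv := hpos ρ hρ hρ0
  have ht : 0 < 5 * ρ / (6 * Real.pi) := by
    have := Real.pi_pos
    positivity
  have e1 : 12 * (Real.pi / 2 * (kap n) ^ (-(1 : ℝ) / n)) / (5 * ρ) =
      (5 * ρ / (6 * Real.pi))⁻¹ * (kap n) ^ (-(1 : ℝ) / n) := by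
    have := Real.pi_pos
    field_simp
    ring
  rw [e1] at key
  have h7 := pow_le_pow_left₀ (Real.rpow_pos_of_pos hv (-(1 : ℝ) / n)).le key n
  rw [EX2_pow hn hv, mul_pow, EX2_pow hn hκ, inv_pow, ← mul_inv] at h7
  have h8 : 0 < (5 * ρ / (6 * Real.pi)) ^ n * kap n := by positivity
  have h9 := (inv_le_inv₀ hv h8).1 h7
  rw [mul_comm]
  exact h9

end Pool.Agent.CRO
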