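import Pool.Agent.helper58.CRO.SpecG
import Pool.Agent.helper58.CRO.SpecE

/-!
# Row cro:GLI: the asymptotic formula
-/

set_option autoImplicit false

open scoped Manifold ContDiff Topology ENNReal
open MeasureTheory Set Bundle Filter

noncomputable section

namespace Pool.Agent.CRO

theorem GLI (h1 : GC2_stmt) (h2 : UPB_stmt) (h3 : RAT_stmt) : GLI_stmt := by
  unfold GLI_stmt
  have hlow : Tendsto (fun n : ℕ => ((n : ℝ) + 2) / (n + 3)) atTop (𝓝 1) := by
    have h4 : Tendsto (fun n : ℕ => (1 : ℝ) - 1 / ((n : ℝ) + 3)) atTop (𝓝 (1 - 0)) := by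
      apply Tendsto.sub tendsto_const_nhds
      apply Tendsto.div_atTop tendsto_const_nhds
      exact tendsto_atTop_add_const_right _ _ tendsto_natCast_atTop_atTop
    rw [sub_zero] at h4
    refine h4.congr ?_
    intro n
    have : (n : ℝ) + 3 ≠ 0 := by positivity
    field_simp
    ring
  refine tendsto_of_tendsto_of_tendsto_of_le_of_le' hlow tendsto_const_nhds ?_ ?_
  · filter_upwards [eventually_ge_atTop 2] with n hn
    have hk : 0 < sphereVol n / Real.pi ^ n := div_pos (h3 n).2.1 (pow_pos Real.pi_pos n)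
    have ha := h1 n hn
    have hb := h2 n (by omega)
    have hfin : cstar n ≠ ⊤ := ne_top_of_le_ne_top ENNReal.ofReal_ne_top hb
    rw [le_div_iff₀ hk]
    exact (ENNReal.ofReal_le_iff_le_toReal hfin).mp ha
  · filter_upwards [eventually_ge_atTop 2] with n hn
    have hk : 0 < sphereVol n / Real.pi ^ n := div_pos (h3 n).2.1 (pow_pos Real.pi_pos n)
    have hb := h2 n (by omega)
    rw [div_le_one hk]
    exact ENNReal.toReal_le_of_le_ofReal hk.le hb

end Pool.Agent.CRO
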