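import Pool.Agent.helper58.CRO.SpecI

/-!
# Row cro:ISE: the integral of the positive part of the cosine minus a constant over the ball
-/

set_option autoImplicit false

open scoped Manifold ContDiff Topology ENNReal
open MeasureTheory Set Bundle Filter

noncomputable section

namespace Pool.Agent.CRO

theorem ISE_cont (n : ℕ) : Continuous (fun t : ℝ => Real.sqrt (1 - t ^ 2) ^ (n - 1)) := by
  fun_prop

theorem ISE_MM_deriv (n : ℕ) (c : ℝ) :
    HasDerivAt (MMc n) (-(Real.sqrt (1 - c ^ 2) ^ (n - 1))) c := by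
  unfold MMc
  exact intervalIntegral.integral_hasDerivAt_left ((ISE_cont n).intervalIntegrable _ _)
    ((ISE_cont n).stronglyMeasurableAtFilter _ _) (ISE_cont n).continuousAt

theorem ISE_MM_cont (n : ℕ) : Continuous (MMc n) :=
  continuous_iff_continuousAt.mpr fun c => (ISE_MM_deriv n c).continuousAt

theorem ISE_SS_cont (n : ℕ) : Continuous (SSc n) := by
  unfold SSc
  have h1 := ISE_MM_cont n
  fun_prop

theorem ISE_BT_cont (n : ℕ) : Continuous (BTc n) := by
  unfold BTc
  have h1 := ISE_MM_cont n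
  fun_prop

theorem ISE_MM_nonneg (n : ℕ) (c : ℝ) (hc : c ≤ 1) : 0 ≤ MMc n c := by
  unfold MMc
  apply intervalIntegral.integral_nonneg hc
  intro t _
  positivity

theorem ISE_SS_nonneg (n : ℕ) (c : ℝ) (h0 : 0 ≤ c) (h1 : c ≤ 1) : 0 ≤ SSc n c := by
  unfold SSc
  have := ISE_MM_nonneg n c h1
  positivity

theorem ISE_BT_deriv (n : ℕ) (hn : 2 ≤ n) (c : ℝ) (h0 : 0 ≤ c) (h1 : c < 1) :
    HasDerivAt (BTc n) (-(SSc n c)) c := by
  have hpos : 0 < 1 - c ^ 2 := by nlinarith
  have hs : 0 < Real.sqrt (1 - c ^ 2) := Real.sqrt_pos.mpr hpos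
  have hd1 : HasDerivAt (fun t : ℝ => 1 - t ^ 2) (-(2 * c)) c := by
    have := (hasDerivAt_pow 2 c).const_sub 1
    simpa using this
  have hd2 : HasDerivAt (fun t : ℝ => Real.sqrt (1 - t ^ 2)) (-(2 * c) / (2 * Real.sqrt (1 - c ^ 2))) c :=
    hd1.sqrt hpos.ne'
  have hd3 := hd2.pow (n + 1)
  have hd4 := hd3.div_const (n : ℝ)
  have hd5 := (hasDerivAt_id c).mul (ISE_MM_deriv n c)
  have hd6 := hd4.sub hd5
  have hn0 : (n : ℝ) ≠ 0 := by
    have : n ≠ 0 := by omega
    exact_mod_cast this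
  have hval : (↑(n + 1) * Real.sqrt (1 - c ^ 2) ^ (n + 1 - 1) *
      (-(2 * c) / (2 * Real.sqrt (1 - c ^ 2)))) / (n : ℝ) -
      (1 * MMc n c + id c * -(Real.sqrt (1 - c ^ 2) ^ (n - 1))) = -(SSc n c) := by
    unfold SSc
    obtain ⟨k, rfl⟩ : ∃ k, n = k + 1 := ⟨n - 1, by omega⟩
    simp only [Nat.add_sub_cancel, id_eq]
    have e1 : Real.sqrt (1 - c ^ 2) ^ (k + 1) = Real.sqrt (1 - c ^ 2) ^ k * Real.sqrt (1 - c ^ 2) := pow_succ _ _
    rw [e1]
    push_cast at hn0 ⊢
    field_simp
    ring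
  rw [hval] at hd6
  exact hd6

theorem ISE_int (n : ℕ) (hn : 2 ≤ n) (c : ℝ) (h0 : 0 ≤ c) (h1 : c ≤ 1) :
    ∫ s in c..1, SSc n s = BTc n c := by
  have hFT := intervalIntegral.integral_eq_sub_of_hasDerivAt_of_le (f := fun s => - BTc n s)
    (f' := SSc n) h1 ((ISE_BT_cont n).neg.continuousOn) (by
      intro x hx
      have := (ISE_BT_deriv n hn x (le_trans h0 hx.1.le) hx.2).neg
      rw [neg_neg] at this
      exact this) ((ISE_SS_cont n).intervalIntegrable _ _)
  rw [hFT]
  have h2 : BTc n 1 = 0 := by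
    unfold BTc MMc
    simp
  rw [h2]
  ring

theorem ISE_set (n : ℕ) (e : En n) (c t : ℝ) (hc : 0 ≤ c) (ht : 0 < t) :
    (volume.restrict (Metric.ball (0 : En n) 1)) {q : En n | t < max (inner ℝ e q / ‖q‖ - c) 0} =
      volume {q : En n | ‖q‖ < 1 ∧ (c + t) * ‖q‖ < inner ℝ e q} := by
  rw [Measure.restrict_apply' Metric.isOpen_ball.measurableSet]
  congr 1
  ext q
  simp only [mem_inter_iff, mem_ofPred_eq, Metric.mem_ball, dist_zero_right, lt_max_iff]
  constructor
  · rintro ⟨h1 | h1, h2⟩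
    · refine ⟨h2, ?_⟩
      have hq : 0 < ‖q‖ := by
        rcases (norm_nonneg q).lt_or_eq with h | h
        · exact h
        · rw [← h, div_zero] at h1
          linarith
      have h3 : c + t < inner ℝ e q / ‖q‖ := by linarith
      rwa [lt_div_iff₀ hq] at h3
    · exact absurd h1 (not_lt.mpr ht.le)
  · rintro ⟨h1, h2⟩
    refine ⟨Or.inl ?_, h1⟩
    have hq : 0 < ‖q‖ := by
      rcases (norm_nonneg q).lt_or_eq with h | h
      · exact h
      · have h3 : q = 0 := norm_eq_zero.mp h.symm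
        rw [h3] at h2
        simp at h2
    have h3 : c + t < inner ℝ e q / ‖q‖ := by
      rw [lt_div_iff₀ hq]
      exact h2
    linarith

theorem ISE (h1 : ISV_stmt) : ISE_stmt := by
  intro n hn e he c hc0 hc1
  have hmeas : Measurable (fun q : En n => max (inner ℝ e q / ‖q‖ - c) 0) := by
    have m1 : Measurable (fun q : En n => (inner ℝ e q : ℝ)) :=
      (continuous_const.inner continuous_id).measurable
    have m2 : Measurable (fun q : En n => ‖q‖) := measurable_norm
    exact ((m1.div m2).sub_const c).max measurable_const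
  have hstep1 : ∫⁻ q in Metric.ball (0 : En n) 1, ENNReal.ofReal (inner ℝ e q / ‖q‖ - c) =
      ∫⁻ q in Metric.ball (0 : En n) 1, ENNReal.ofReal (max (inner ℝ e q / ‖q‖ - c) 0) := by
    apply lintegral_congr
    intro q
    rcases le_total (inner ℝ e q / ‖q‖ - c) 0 with h | h
    · rw [max_eq_right h, ENNReal.ofReal_of_nonpos h, ENNReal.ofReal_zero]
    · rw [max_eq_left h]
  have hnn : 0 ≤ᵐ[volume.restrict (Metric.ball (0 : En n) 1)]
      (fun q : En n => max (inner ℝ e q / ‖q‖ - c) 0) :=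
    Eventually.of_forall fun q => le_max_right _ _
  rw [hstep1, lintegral_eq_lintegral_meas_lt _ hnn hmeas.aemeasurable]
  have hstep2 : ∫⁻ t in Ioi (0 : ℝ), (volume.restrict (Metric.ball (0 : En n) 1))
        {q : En n | t < max (inner ℝ e q / ‖q‖ - c) 0} =
      ∫⁻ t in Ioi (0 : ℝ), (Ioc (0 : ℝ) (1 - c)).indicator
        (fun t => ENNReal.ofReal (kap (n - 1) * SSc n (c + t))) t := by
    apply setLIntegral_congr_fun measurableSet_Ioi
    intro t ht
    have ht0 : 0 < t := ht
    simp only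
    rw [ISE_set n e c t hc0 ht0]
    by_cases hle : t ≤ 1 - c
    · rw [indicator_of_mem (show t ∈ Ioc (0 : ℝ) (1 - c) from ⟨ht0, hle⟩)]
      exact ((h1 n hn e he).1 (c + t) (by linarith) (by linarith))
    · rw [indicator_of_notMem (fun h => hle h.2)]
      have hemp : {q : En n | ‖q‖ < 1 ∧ (c + t) * ‖q‖ < inner ℝ e q} = ∅ := by
        ext q
        simp only [mem_ofPred_eq, mem_empty_iff_false, iff_false, not_and, not_lt]
        intro _
        have h2 := real_inner_le_norm e q
        rw [he, one_mul] at h2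
        have h3 : 1 * ‖q‖ ≤ (c + t) * ‖q‖ := by
          apply mul_le_mul_of_nonneg_right _ (norm_nonneg q)
          push Not at hle
          linarith
        linarith
      rw [hemp, measure_empty]
  rw [hstep2, setLIntegral_indicator measurableSet_Ioc]
  have hinter : Ioc (0 : ℝ) (1 - c) ∩ Ioi 0 = Ioc 0 (1 - c) := by
    ext t
    simp only [mem_inter_iff, mem_Ioc, mem_Ioi]
    tauto
  rw [hinter]
  have hkap : 0 ≤ kap (n - 1) := ENNReal.toReal_nonneg
  have hcont : Continuous (fun t : ℝ => kap (n - 1) * SSc n (c + t)) := by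
    have := ISE_SS_cont n
    fun_prop
  rw [← ofReal_integral_eq_lintegral_ofReal]
  · congr 1
    rw [← intervalIntegral.integral_of_le (by linarith : (0 : ℝ) ≤ 1 - c),
      intervalIntegral.integral_const_mul,
      intervalIntegral.integral_comp_add_left (fun s => SSc n s) c]
    have e1 : c + 0 = c := by ring
    have e2 : c + (1 - c) = 1 := by ring
    rw [e1, e2, ISE_int n hn c hc0 hc1]
  · exact (hcont.integrableOn_Icc).mono_set Ioc_subset_Icc_self
  · filter_upwards [ae_restrict_mem measurableSet_Ioc] with t ht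
    exact mul_nonneg hkap (ISE_SS_nonneg n _ (by linarith [ht.1]) (by linarith [ht.2]))

end Pool.Agent.CRO
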