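import Pool.Agent.helper58.CRO.SpecE

/-!
# MP_5bf3c3_gt, row cro:SCS
-/

open scoped Manifold ContDiff Topology ENNReal
open MeasureTheory Set Bundle Filter

noncomputable section

namespace Pool.Agent.CRO

/-- an entire power series is smooth -/
theorem SCS_entire (c : ℕ → ℝ) (hc : ∀ n, c n ≠ 0)
    (hc' : Tendsto (fun n : ℕ => ‖c n.succ‖ / ‖c n‖) atTop (𝓝 0)) :
    ContDiff ℝ ∞ (fun s : ℝ => ∑' n : ℕ, c n * s ^ n) := by
  have h1 : (FormalMultilinearSeries.ofScalars ℝ c).radius = ⊤ :=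
    FormalMultilinearSeries.ofScalars_radius_eq_top_of_tendsto ℝ c
      (Filter.Eventually.of_forall hc) hc'
  have h2 := (FormalMultilinearSeries.ofScalars ℝ c).hasFPowerSeriesOnBall
    (by rw [h1]; exact ENNReal.zero_lt_top)
  have h3 := h2.analyticOnNhd
  rw [h1, Metric.eball_top] at h3
  have h4 : ContDiff ℝ ∞ (FormalMultilinearSeries.ofScalars ℝ c).sum :=
    contDiffOn_univ.1 (h3.contDiffOn (n := ∞) uniqueDiffOn_univ)
  have h5 : (fun s : ℝ => ∑' n : ℕ, c n * s ^ n) = (FormalMultilinearSeries.ofScalars ℝ c).sum := by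
    have := FormalMultilinearSeries.ofScalarsSum_eq_tsum (𝕜 := ℝ) (E := ℝ) c
    funext s
    have h6 := congrFun this s
    simp only [smul_eq_mul] at h6
    exact h6.symm
  rw [h5]
  exact h4

theorem SCS_ratio (e : ℕ) : Tendsto (fun n : ℕ => ‖((-1 : ℝ) ^ (n.succ) /
    ((2 * n.succ + e).factorial : ℝ))‖ / ‖((-1 : ℝ) ^ n / ((2 * n + e).factorial : ℝ))‖)
    atTop (𝓝 0) := by
  refine squeeze_zero (fun n => by positivity) (fun n => ?_)
    tendsto_one_div_add_atTop_nhds_zero_nat
  rw [norm_div, norm_div, norm_pow, norm_pow, norm_neg, norm_one, one_pow, one_pow,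
    Real.norm_natCast, Real.norm_natCast]
  have h1 : (2 * n.succ + e).factorial = (2 * n + e + 2) * ((2 * n + e + 1) *
      (2 * n + e).factorial) := by
    have : 2 * n.succ + e = (2 * n + e + 1) + 1 := by
      rw [Nat.succ_eq_add_one]
      ring
    rw [this, Nat.factorial_succ, Nat.factorial_succ]
  have h2 : (0 : ℝ) < ((2 * n + e).factorial : ℝ) := by
    exact_mod_cast Nat.factorial_pos _
  rw [h1]
  push_cast
  rw [div_div_div_cancel_left' _ _ one_ne_zero, div_le_div_iff₀ (by positivity) (by positivity)]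
  have h3 : (0 : ℝ) ≤ n := Nat.cast_nonneg n
  have h4 : (0 : ℝ) ≤ e := Nat.cast_nonneg e
  have h5 : (n : ℝ) + 1 ≤ (2 * n + e + 2) * (2 * n + e + 1) := by nlinarith
  nlinarith

theorem SCS : SCS_stmt := by
  intro n
  have hN : ContDiff ℝ ∞ (fun y : En n => ‖y‖ ^ 2) := contDiff_norm_sq ℝ
  constructor
  · have h1 : ContDiff ℝ ∞ (fun s : ℝ => ∑' k : ℕ, ((-1) ^ k / ((2 * k).factorial : ℝ)) * s ^ k) := by
      apply SCS_entire
      · intro k
        positivity
      · exact SCS_ratio 0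
    have h2 : (fun y : En n => Real.cos ‖y‖) = fun y : En n =>
        ∑' k : ℕ, ((-1) ^ k / ((2 * k).factorial : ℝ)) * (‖y‖ ^ 2) ^ k := by
      funext y
      have h3 := (Real.hasSum_cos ‖y‖).tsum_eq
      rw [← h3]
      apply tsum_congr
      intro k
      rw [pow_mul]
      ring
    rw [h2]
    exact h1.comp hN
  · have h1 : ContDiff ℝ ∞ (fun s : ℝ => ∑' k : ℕ, ((-1) ^ k / ((2 * k + 1).factorial : ℝ)) * s ^ k) := by
      apply SCS_entire
      · intro k
        positivity
      · exact SCS_ratio 1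
    have h2 : (fun y : En n => Real.sinc ‖y‖) = fun y : En n =>
        ∑' k : ℕ, ((-1) ^ k / ((2 * k + 1).factorial : ℝ)) * (‖y‖ ^ 2) ^ k := by
      funext y
      by_cases hy : ‖y‖ = 0
      · rw [hy, Real.sinc_zero, tsum_eq_single 0]
        · simp
        · intro k hk
          simp [hk]
      · have h3 := (Real.hasSum_sin ‖y‖).tsum_eq
        rw [Real.sinc_of_ne_zero hy, ← h3, ← tsum_div_const]
        apply tsum_congr
        intro k
        rw [pow_succ, pow_mul]
        field_simp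
    rw [h2]
    exact h1.comp hN

end Pool.Agent.CRO
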